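import Pool.Agent.Helper61.BD.TriExp0

/-! Module G (blueprint G): exponential of the tridiagonal matrix `J`. -/

open Set Filter Topology MeasureTheory

namespace Pool.Agent.Helper55.BD

variable {β a : ℕ → ℝ} {A B : ℝ}

theorem Jterm_eq (β a : ℕ → ℝ) (t : ℂ) (n k j : ℕ) :
    (-t) ^ n / (n.factorial : ℂ) * Jcol β a n k j =
      ∑ p ∈ Finset.HasAntidiagonal.antidiagonal n,
        ((-t) ^ p.1 / (p.1.factorial : ℂ) * Kcol β a (β k : ℂ) p.1 k j) *
          ((-(t * β k)) ^ p.2 / (p.2.factorial : ℂ)) := by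
  rw [Jcol_binom β a (β k : ℂ), Finset.mul_sum]
  refine Finset.sum_congr rfl fun p hp => ?_
  have hp' : p.1 + p.2 = n := by simpa using hp
  have h1 : (n.factorial : ℂ) ≠ 0 := by exact_mod_cast n.factorial_ne_zero
  have h2 : (p.1.factorial : ℂ) ≠ 0 := by exact_mod_cast p.1.factorial_ne_zero
  have h3 : (p.2.factorial : ℂ) ≠ 0 := by exact_mod_cast p.2.factorial_ne_zero
  have h4 : (n.choose p.1 : ℂ) * (p.1.factorial : ℂ) * (p.2.factorial : ℂ) = (n.factorial : ℂ) := by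
    subst hp'
    have := Nat.add_choose_mul_factorial_mul_factorial p.1 p.2
    rw [← Nat.choose_symm_add] at this
    exact_mod_cast this
  have h5 : (-t) ^ n = (-t) ^ p.1 * (-t) ^ p.2 := by rw [← pow_add, hp']
  have h6 : (-(t * (β k : ℂ))) ^ p.2 = (-t) ^ p.2 * (β k : ℂ) ^ p.2 := by
    rw [← mul_pow]; ring
  rw [h5, h6, ← h4]
  have h7 : (n.choose p.1 : ℂ) ≠ 0 := by
    intro h0
    rw [h0] at h4
    simp at h4
    exact h1 h4.symm
  field_simp

theorem Kterm_summable (h : JB β a A B) (t : ℂ) (j k : ℕ) :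
    Summable (fun m : ℕ => ‖(-t) ^ m / (m.factorial : ℂ) * Kcol β a (β k : ℂ) m k j‖) := by
  obtain ⟨D, hD, hb⟩ := Kterm_bound h ‖t‖ (1 / 2) (norm_nonneg _) (by norm_num) (by norm_num)
  refine Summable.of_nonneg_of_le (fun _ => norm_nonneg _) (fun m => hb t le_rfl j k m) ?_
  exact (summable_geometric_of_lt_one (by norm_num) (by norm_num)).mul_left _

theorem exp_term_summable (z : ℂ) : Summable (fun m : ℕ => ‖z ^ m / (m.factorial : ℂ)‖) :=
  NormedSpace.norm_expSeries_div_summable z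

theorem exp_term_tsum (z : ℂ) : ∑' m : ℕ, z ^ m / (m.factorial : ℂ) = Complex.exp z := by
  rw [Complex.exp_eq_exp_ℂ, NormedSpace.exp_eq_tsum_div]

theorem exp_term_norm_tsum (z : ℂ) :
    ∑' m : ℕ, ‖z ^ m / (m.factorial : ℂ)‖ = Real.exp ‖z‖ := by
  rw [Real.exp_eq_exp_ℝ, NormedSpace.exp_eq_tsum_div]
  refine tsum_congr fun m => ?_
  rw [norm_div, norm_pow]
  simp

theorem EE_summable (h : JB β a A B) (t : ℂ) (j k : ℕ) :
    Summable (fun m : ℕ => ‖(-t) ^ m / (m.factorial : ℂ) * Jcol β a m k j‖) := by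
  have := summable_norm_sum_mul_antidiagonal_of_summable_norm (Kterm_summable h t j k)
    (exp_term_summable (-(t * β k)))
  refine this.congr fun n => ?_
  rw [Jterm_eq]

theorem EE_eq (h : JB β a A B) (t : ℂ) (j k : ℕ) :
    EE β a t j k = (∑' m : ℕ, (-t) ^ m / (m.factorial : ℂ) * Kcol β a (β k : ℂ) m k j) *
      Complex.exp (-(t * β k)) := by
  rw [← exp_term_tsum, tsum_mul_tsum_eq_tsum_sum_antidiagonal_of_summable_norm
    (Kterm_summable h t j k) (exp_term_summable (-(t * β k))), EE]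
  exact tsum_congr fun n => Jterm_eq β a t n k j

/-- bound on the series of absolute values -/
theorem EE_abs_bound (h : JB β a A B) (R θ : ℝ) (hR : 0 ≤ R) (hθ : 0 < θ) (hθ1 : θ < 1) :
    ∃ K : ℝ, 0 ≤ K ∧ ∀ t : ℂ, ‖t‖ ≤ R → ∀ j k : ℕ,
      ∑' m : ℕ, ‖(-t) ^ m / (m.factorial : ℂ) * Jcol β a m k j‖ ≤
        K * θ ^ ((j : ℤ) - k).natAbs * Real.exp (R * |β k|) := by
  obtain ⟨D, hD, hb⟩ := Kterm_bound h R θ hR hθ hθ1
  refine ⟨2 * D, by positivity, ?_⟩
  intro t ht j k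
  have s1 := Kterm_summable h t j k
  have s2 := exp_term_summable (-(t * β k))
  have e1 := tsum_mul_tsum_eq_tsum_sum_antidiagonal_of_summable_norm
    (f := fun m : ℕ => ‖(-t) ^ m / (m.factorial : ℂ) * Kcol β a (β k : ℂ) m k j‖)
    (g := fun m : ℕ => ‖(-(t * (β k : ℂ))) ^ m / (m.factorial : ℂ)‖)
    (by simpa using s1) (by simpa using s2)
  have s3 := summable_norm_sum_mul_antidiagonal_of_summable_norm
    (f := fun m : ℕ => ‖(-t) ^ m / (m.factorial : ℂ) * Kcol β a (β k : ℂ) m k j‖)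
    (g := fun m : ℕ => ‖(-(t * (β k : ℂ))) ^ m / (m.factorial : ℂ)‖)
    (by simpa using s1) (by simpa using s2)
  have l1 : ∑' m : ℕ, ‖(-t) ^ m / (m.factorial : ℂ) * Jcol β a m k j‖ ≤
      (∑' m : ℕ, ‖(-t) ^ m / (m.factorial : ℂ) * Kcol β a (β k : ℂ) m k j‖) *
      ∑' m : ℕ, ‖(-(t * (β k : ℂ))) ^ m / (m.factorial : ℂ)‖ := by
    rw [e1]
    refine Summable.tsum_le_tsum (fun n => ?_) (EE_summable h t j k) ?_
    · rw [Jterm_eq]
      refine (norm_sum_le _ _).trans (Finset.sum_le_sum fun p _ => ?_)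
      rw [norm_mul]
    · refine s3.congr fun n => ?_
      rw [Real.norm_eq_abs, abs_of_nonneg]
      exact Finset.sum_nonneg fun p _ => mul_nonneg (norm_nonneg _) (norm_nonneg _)
  have l2 : ∑' m : ℕ, ‖(-t) ^ m / (m.factorial : ℂ) * Kcol β a (β k : ℂ) m k j‖ ≤
      2 * D * θ ^ ((j : ℤ) - k).natAbs := by
    have g : HasSum (fun m : ℕ => D * θ ^ ((j : ℤ) - k).natAbs * (1 / 2 : ℝ) ^ m)
        (D * θ ^ ((j : ℤ) - k).natAbs * 2) := by
      have := hasSum_geometric_of_lt_one (r := (1 / 2 : ℝ)) (by norm_num) (by norm_num)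
      have h2 : (1 - (1 / 2 : ℝ))⁻¹ = 2 := by norm_num
      rw [h2] at this
      exact this.mul_left _
    calc _ ≤ ∑' m : ℕ, D * θ ^ ((j : ℤ) - k).natAbs * (1 / 2 : ℝ) ^ m :=
          Summable.tsum_le_tsum (fun m => hb t ht j k m) s1 g.summable
      _ = _ := by rw [g.tsum_eq]; ring
  rw [exp_term_norm_tsum] at l1
  have l3 : Real.exp ‖-(t * (β k : ℂ))‖ ≤ Real.exp (R * |β k|) := by
    rw [norm_neg, norm_mul, Complex.norm_real, Real.norm_eq_abs]
    gcongr
  calc _ ≤ _ := l1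
    _ ≤ (2 * D * θ ^ ((j : ℤ) - k).natAbs) * Real.exp (R * |β k|) := by
        refine mul_le_mul l2 l3 (Real.exp_pos _).le (by positivity)

theorem EE_bound (h : JB β a A B) (R θ : ℝ) (hθ : 0 < θ) (hθ1 : θ < 1) :
    ∃ K : ℝ, 0 ≤ K ∧ ∀ t : ℂ, ‖t‖ ≤ R → ∀ j k : ℕ,
      ‖EE β a t j k‖ ≤ K * ((k : ℝ) + 1) ^ (-t.re) * θ ^ ((j : ℤ) - k).natAbs := by
  by_cases hR : R < 0
  · exact ⟨0, le_rfl, fun t ht => absurd (norm_nonneg t) (by linarith)⟩
  push Not at hR
  obtain ⟨D, hD, hb⟩ := Kterm_bound h R θ hR hθ hθ1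
  refine ⟨2 * D * Real.exp (R * B), by positivity, ?_⟩
  intro t ht j k
  rw [EE_eq h, norm_mul]
  have g : HasSum (fun m : ℕ => D * θ ^ ((j : ℤ) - k).natAbs * (1 / 2 : ℝ) ^ m)
      (D * θ ^ ((j : ℤ) - k).natAbs * 2) := by
    have := hasSum_geometric_of_lt_one (r := (1 / 2 : ℝ)) (by norm_num) (by norm_num)
    have h2 : (1 - (1 / 2 : ℝ))⁻¹ = 2 := by norm_num
    rw [h2] at this
    exact this.mul_left _
  have l2 : ‖∑' m : ℕ, (-t) ^ m / (m.factorial : ℂ) * Kcol β a (β k : ℂ) m k j‖ ≤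
      2 * D * θ ^ ((j : ℤ) - k).natAbs := by
    calc _ ≤ ∑' m : ℕ, ‖(-t) ^ m / (m.factorial : ℂ) * Kcol β a (β k : ℂ) m k j‖ :=
          norm_tsum_le_tsum_norm (Kterm_summable h t j k)
      _ ≤ ∑' m : ℕ, D * θ ^ ((j : ℤ) - k).natAbs * (1 / 2 : ℝ) ^ m :=
          Summable.tsum_le_tsum (fun m => hb t ht j k m) (Kterm_summable h t j k) g.summable
      _ = _ := by rw [g.tsum_eq]; ring
  have l3 : ‖Complex.exp (-(t * β k))‖ ≤ Real.exp (R * B) * ((k : ℝ) + 1) ^ (-t.re) := by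
    rw [Complex.norm_exp, Real.rpow_def_of_pos (by positivity), ← Real.exp_add]
    refine Real.exp_le_exp.2 ?_
    have e : (-(t * (β k : ℂ))).re = -(t.re * β k) := by simp
    rw [e]
    have h1 : -(t.re * (β k - Real.log ((k : ℝ) + 1))) ≤ R * B := by
      calc -(t.re * (β k - Real.log ((k : ℝ) + 1))) ≤
            |t.re * (β k - Real.log ((k : ℝ) + 1))| := neg_le_abs _
        _ = |t.re| * |β k - Real.log ((k : ℝ) + 1)| := abs_mul _ _
        _ ≤ R * B := mul_le_mul ((Complex.abs_re_le_norm t).trans ht) (h.hb k) (abs_nonneg _) hR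
    linarith
  calc _ ≤ (2 * D * θ ^ ((j : ℤ) - k).natAbs) *
        (Real.exp (R * B) * ((k : ℝ) + 1) ^ (-t.re)) :=
        mul_le_mul l2 l3 (norm_nonneg _) (by positivity)
    _ = _ := by ring

theorem EE_differentiable (h : JB β a A B) (j k : ℕ) :
    Differentiable ℂ (fun t => EE β a t j k) := by
  intro t
  have hs := EE_summable h ((‖t‖ + 1 : ℝ) : ℂ) j k
  have : DifferentiableOn ℂ (fun t => EE β a t j k) (Metric.ball 0 (‖t‖ + 1)) := by
    unfold EE
    refine Complex.differentiableOn_tsum_of_summable_norm hs ?_ Metric.isOpen_ball ?_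
    · intro m
      fun_prop
    · intro m w hw
      rw [norm_mul, norm_mul, norm_div, norm_div, norm_pow, norm_pow, norm_neg, norm_neg]
      have hw' : ‖w‖ < ‖t‖ + 1 := by simpa using hw
      have e : ‖((‖t‖ + 1 : ℝ) : ℂ)‖ = ‖t‖ + 1 := by
        rw [Complex.norm_real, Real.norm_eq_abs, abs_of_nonneg (by positivity)]
      rw [e]
      gcongr
  exact this.differentiableAt (Metric.isOpen_ball.mem_nhds (by simp))

theorem EE_zero (j k : ℕ) : EE β a 0 j k = if j = k then 1 else 0 := by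
  rw [EE, tsum_eq_single 0]
  · simp [Jcol, Pi.single_apply]
  · intro m hm
    simp [hm]

theorem Jop_hasSum (x : ℕ → ℕ → ℂ) (y : ℕ → ℂ) (hx : ∀ i, HasSum (fun l => x l i) (y i)) (i : ℕ) :
    HasSum (fun l => Jop β a (x l) i) (Jop β a y i) := by
  unfold Jop
  refine ((((hx i).mul_left (β i : ℂ)).add ?_).sub ((hx (i + 1)).mul_left (a (i + 1) : ℂ)))
  split_ifs
  · exact hasSum_zero
  · exact (hx (i - 1)).mul_left _

theorem Jop_mul (φ : ℕ → ℂ) (c : ℂ) (i : ℕ) :
    Jop β a (fun j => φ j * c) i = Jop β a φ i * c := by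
  unfold Jop
  split_ifs <;> ring

theorem row_hasSum (β a : ℕ → ℝ) (φ : ℕ → ℂ) (m : ℕ) : ∀ i,
    HasSum (fun l => Jcol β a m l i * φ l) ((Jop β a)^[m] φ i) := by
  induction m with
  | zero =>
    intro i
    have : (fun l => Jcol β a 0 l i * φ l) = fun l => if l = i then φ i else 0 := by
      funext l
      by_cases hl : l = i
      · subst hl; simp [Jcol]
      · have : i ≠ l := fun h => hl h.symm
        simp [Jcol, hl, this]
    rw [this]
    exact hasSum_ite_eq i (φ i)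
  | succ m ih =>
    intro i
    rw [Function.iterate_succ', Function.comp_apply]
    have := Jop_hasSum (β := β) (a := a) (fun l j => Jcol β a m l j * φ l)
      ((Jop β a)^[m] φ) ih i
    have e : (fun l => Jop β a (fun j => Jcol β a m l j * φ l) i) =
        fun l => Jcol β a (m + 1) l i * φ l := by
      funext l
      exact Jop_mul _ _ _
    rw [← e]
    exact this

theorem Jcol_add (β a : ℕ → ℝ) (m n k : ℕ) :
    Jcol β a (m + n) k = (Jop β a)^[m] (Jcol β a n k) := by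
  induction m with
  | zero => simp
  | succ m ih =>
    rw [Function.iterate_succ', Function.comp_apply, ← ih, Nat.add_right_comm]
    rfl

theorem weight_summable (h : JB β a A B) (R : ℝ) (hR : 0 ≤ R) (i : ℕ) :
    Summable (fun l : ℕ => (1 / 2 : ℝ) ^ ((i : ℤ) - l).natAbs * Real.exp (R * |β l|)) := by
  obtain ⟨n, hn⟩ := exists_nat_ge R
  have s0 : Summable (fun l : ℕ => ((l : ℝ)) ^ n * (1 / 2 : ℝ) ^ l) :=
    summable_pow_mul_geometric_of_norm_lt_one n (by rw [Real.norm_eq_abs]; norm_num [abs_of_pos])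
  have s1 : Summable (fun l : ℕ => (((l + 1 : ℕ) : ℝ)) ^ n * (1 / 2 : ℝ) ^ (l + 1)) :=
    (summable_nat_add_iff 1).2 s0
  refine Summable.of_nonneg_of_le (fun l => by positivity) (fun l => ?_)
    (s1.mul_left (2 * 2 ^ i * Real.exp (R * B)))
  have h1 : (1 / 2 : ℝ) ^ ((i : ℤ) - l).natAbs ≤ 2 ^ i * (1 / 2 : ℝ) ^ l := by
    have e : (2 : ℝ) ^ i * (1 / 2 : ℝ) ^ i = 1 := by rw [← mul_pow]; norm_num
    have h2 : (1 / 2 : ℝ) ^ ((i : ℤ) - l).natAbs * (1 / 2 : ℝ) ^ i ≤ (1 / 2 : ℝ) ^ l := by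
      rw [← pow_add]
      exact pow_le_pow_of_le_one (by norm_num) (by norm_num) (by omega)
    calc (1 / 2 : ℝ) ^ ((i : ℤ) - l).natAbs =
          2 ^ i * ((1 / 2 : ℝ) ^ ((i : ℤ) - l).natAbs * (1 / 2 : ℝ) ^ i) := by
          rw [mul_comm ((1 / 2 : ℝ) ^ ((i : ℤ) - l).natAbs), ← mul_assoc, e, one_mul]
      _ ≤ _ := by gcongr
  have h3 : Real.exp (R * |β l|) ≤ Real.exp (R * B) * (((l + 1 : ℕ) : ℝ)) ^ n := by
    have hlog : 0 ≤ Real.log ((l : ℝ) + 1) := Real.log_nonneg (by linarith [(Nat.cast_nonneg l : (0 : ℝ) ≤ l)])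
    have h4 : |β l| ≤ B + Real.log ((l : ℝ) + 1) := by
      have := h.hb l
      calc |β l| = |(β l - Real.log ((l : ℝ) + 1)) + Real.log ((l : ℝ) + 1)| := by ring_nf
        _ ≤ |β l - Real.log ((l : ℝ) + 1)| + |Real.log ((l : ℝ) + 1)| := abs_add_le _ _
        _ ≤ B + Real.log ((l : ℝ) + 1) := by rw [abs_of_nonneg hlog]; linarith
    have h5 : (((l + 1 : ℕ) : ℝ)) ^ n = Real.exp ((n : ℝ) * Real.log ((l : ℝ) + 1)) := by
      rw [Real.exp_nat_mul, Real.exp_log (by positivity)]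
      push_cast
      rfl
    rw [h5, ← Real.exp_add]
    refine Real.exp_le_exp.2 ?_
    calc R * |β l| ≤ R * (B + Real.log ((l : ℝ) + 1)) := by gcongr
      _ = R * B + R * Real.log ((l : ℝ) + 1) := by ring
      _ ≤ R * B + n * Real.log ((l : ℝ) + 1) := by gcongr
  calc (1 / 2 : ℝ) ^ ((i : ℤ) - l).natAbs * Real.exp (R * |β l|)
      ≤ (2 ^ i * (1 / 2 : ℝ) ^ l) * (Real.exp (R * B) * (((l + 1 : ℕ) : ℝ)) ^ n) :=
        mul_le_mul h1 h3 (Real.exp_pos _).le (by positivity)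
    _ = _ := by rw [pow_succ]; ring

theorem EE_add (h : JB β a A B) (t s : ℂ) (i j : ℕ) :
    HasSum (fun l => EE β a t i l * EE β a s l j) (EE β a (t + s) i j) := by
  obtain ⟨X, hX⟩ : ∃ X : ℕ → ℕ → ℂ, X = fun l m => (-t) ^ m / (m.factorial : ℂ) * Jcol β a m l i :=
    ⟨_, rfl⟩
  obtain ⟨Y, hY⟩ : ∃ Y : ℕ → ℕ → ℂ, Y = fun l n => (-s) ^ n / (n.factorial : ℂ) * Jcol β a n j l :=
    ⟨_, rfl⟩
  have sX : ∀ l, Summable fun m => ‖X l m‖ := by rw [hX]; exact fun l => EE_summable h t i l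
  have sY : ∀ l, Summable fun n => ‖Y l n‖ := by rw [hY]; exact fun l => EE_summable h s l j
  have x1 : ∀ l, HasSum (X l) (EE β a t i l) := by
    intro l
    have : EE β a t i l = ∑' m, X l m := by rw [hX]; rfl
    rw [this]
    exact (sX l).of_norm.hasSum
  have x2 : ∀ l, HasSum (Y l) (EE β a s l j) := by
    intro l
    have : EE β a s l j = ∑' m, Y l m := by rw [hY]; rfl
    rw [this]
    exact (sY l).of_norm.hasSum
  obtain ⟨F, hF⟩ : ∃ F : ℕ × (ℕ × ℕ) → ℂ, F = fun q => X q.1 q.2.1 * Y q.1 q.2.2 := ⟨_, rfl⟩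
  set R : ℝ := max ‖t‖ ‖s‖ with hR
  have hR0 : 0 ≤ R := (norm_nonneg t).trans (le_max_left _ _)
  obtain ⟨K, hK, hb⟩ := EE_abs_bound h R (1 / 2) hR0 (by norm_num) (by norm_num)
  have sF : Summable (fun q => ‖F q‖) := by
    rw [summable_prod_of_nonneg (fun _ => norm_nonneg _)]
    constructor
    · intro l
      simp only [hF, norm_mul]
      exact (sX l).mul_of_nonneg (sY l) (fun _ => norm_nonneg _) (fun _ => norm_nonneg _)
    · have e : ∀ l, ∑' q : ℕ × ℕ, ‖F (l, q)‖ = (∑' m, ‖X l m‖) * ∑' n, ‖Y l n‖ := by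
        intro l
        simp only [hF, norm_mul]
        exact ((sX l).hasSum.mul (sY l).hasSum ((sX l).mul_of_nonneg (sY l)
          (fun _ => norm_nonneg _) (fun _ => norm_nonneg _))).tsum_eq
      refine Summable.of_nonneg_of_le (fun l => tsum_nonneg fun _ => norm_nonneg _) (fun l => ?_)
        ((weight_summable h R hR0 i).mul_left (K * (K * Real.exp (R * |β j|))))
      show ∑' q : ℕ × ℕ, ‖F (l, q)‖ ≤ _
      rw [e l]
      have b1 : ∑' m, ‖X l m‖ ≤
          K * (1 / 2 : ℝ) ^ ((i : ℤ) - l).natAbs * Real.exp (R * |β l|) := by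
        rw [hX]; exact hb t (le_max_left _ _) i l
      have b2 : ∑' m, ‖Y l m‖ ≤
          K * (1 / 2 : ℝ) ^ ((l : ℤ) - j).natAbs * Real.exp (R * |β j|) := by
        rw [hY]; exact hb s (le_max_right _ _) l j
      have b3 : K * (1 / 2 : ℝ) ^ ((l : ℤ) - j).natAbs * Real.exp (R * |β j|) ≤
          K * Real.exp (R * |β j|) := by
        have : (1 / 2 : ℝ) ^ ((l : ℤ) - j).natAbs ≤ 1 := pow_le_one₀ (by norm_num) (by norm_num)
        calc _ ≤ K * 1 * Real.exp (R * |β j|) := by gcongr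
          _ = _ := by ring
      calc (∑' m, ‖X l m‖) * ∑' n, ‖Y l n‖ ≤
            (K * (1 / 2 : ℝ) ^ ((i : ℤ) - l).natAbs * Real.exp (R * |β l|)) *
              (K * Real.exp (R * |β j|)) :=
            mul_le_mul b1 (b2.trans b3) (tsum_nonneg fun _ => norm_nonneg _) (by positivity)
        _ = _ := by ring
  have sF' : Summable F := sF.of_norm
  have hS := sF'.hasSum
  have h1 : HasSum (fun l => EE β a t i l * EE β a s l j) (∑' q, F q) := by
    refine hS.prod_fiberwise fun l => ?_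
    have e1 : (fun c : ℕ × ℕ => F (l, c)) = fun x : ℕ × ℕ => X l x.1 * Y l x.2 := by rw [hF]
    have x3 : Summable fun c : ℕ × ℕ => F (l, c) := sF'.prod_factor l
    rw [e1] at x3 ⊢
    exact (x1 l).mul (x2 l) x3
  have h2 : HasSum (fun q : (ℕ × ℕ) × ℕ => F (q.2, q.1)) (∑' q, F q) :=
    ((Equiv.prodComm (ℕ × ℕ) ℕ).hasSum_iff (f := F)).2 hS
  have key : ∀ p : ℕ × ℕ, HasSum (fun l : ℕ => (fun q : (ℕ × ℕ) × ℕ => F (q.2, q.1)) (p, l))
      ((fun p : ℕ × ℕ => (-t) ^ p.1 / (p.1.factorial : ℂ) *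
      ((-s) ^ p.2 / (p.2.factorial : ℂ)) * Jcol β a (p.1 + p.2) j i) p) := by
    intro p
    have := (row_hasSum β a (Jcol β a p.2 j) p.1 i).mul_left
      ((-t) ^ p.1 / (p.1.factorial : ℂ) * ((-s) ^ p.2 / (p.2.factorial : ℂ)))
    rw [← Jcol_add] at this
    have e : (fun l : ℕ => (fun q : (ℕ × ℕ) × ℕ => F (q.2, q.1)) (p, l)) =
        fun l => (-t) ^ p.1 / (p.1.factorial : ℂ) * ((-s) ^ p.2 / (p.2.factorial : ℂ)) *
          (Jcol β a p.1 l i * Jcol β a p.2 j l) := by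
      funext l
      simp only [hF, hX, hY]
      ring
    rw [e]
    exact this
  have h3 : HasSum (fun p : ℕ × ℕ => (-t) ^ p.1 / (p.1.factorial : ℂ) *
      ((-s) ^ p.2 / (p.2.factorial : ℂ)) * Jcol β a (p.1 + p.2) j i) (∑' q, F q) :=
    h2.prod_fiberwise key
  have h4 : HasSum (fun q : (Σ n : ℕ, Finset.HasAntidiagonal.antidiagonal n) =>
      (-t) ^ (q.2 : ℕ × ℕ).1 / ((q.2 : ℕ × ℕ).1.factorial : ℂ) *
      ((-s) ^ (q.2 : ℕ × ℕ).2 / ((q.2 : ℕ × ℕ).2.factorial : ℂ)) *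
        Jcol β a ((q.2 : ℕ × ℕ).1 + (q.2 : ℕ × ℕ).2) j i) (∑' q, F q) :=
    (Finset.HasAntidiagonal.sigmaAntidiagonalEquivProd.hasSum_iff).2 h3
  have h5 : HasSum (fun n : ℕ => (-(t + s)) ^ n / (n.factorial : ℂ) * Jcol β a n j i)
      (∑' q, F q) := by
    refine h4.sigma fun n => ?_
    have e : (-(t + s)) ^ n / (n.factorial : ℂ) * Jcol β a n j i =
        ∑ p : (Finset.HasAntidiagonal.antidiagonal n : Finset (ℕ × ℕ)),
          (-t) ^ (p : ℕ × ℕ).1 / ((p : ℕ × ℕ).1.factorial : ℂ) *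
          ((-s) ^ (p : ℕ × ℕ).2 / ((p : ℕ × ℕ).2.factorial : ℂ)) *
            Jcol β a ((p : ℕ × ℕ).1 + (p : ℕ × ℕ).2) j i := by
      rw [Finset.sum_coe_sort (Finset.HasAntidiagonal.antidiagonal n) (fun p : ℕ × ℕ =>
        (-t) ^ p.1 / (p.1.factorial : ℂ) * ((-s) ^ p.2 / (p.2.factorial : ℂ)) *
          Jcol β a (p.1 + p.2) j i)]
      have e2 : (-(t + s)) ^ n = ∑ p ∈ Finset.HasAntidiagonal.antidiagonal n,
          n.choose p.1 • ((-t) ^ p.1 * (-s) ^ p.2) := by
        have : -(t + s) = -t + -s := by ring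
        rw [this]
        exact (Commute.all _ _).add_pow' n
      rw [e2, Finset.sum_div, Finset.sum_mul]
      refine Finset.sum_congr rfl fun p hp => ?_
      have hp' : p.1 + p.2 = n := by simpa using hp
      have h1 : (n.factorial : ℂ) ≠ 0 := by exact_mod_cast n.factorial_ne_zero
      have h2 : (p.1.factorial : ℂ) ≠ 0 := by exact_mod_cast p.1.factorial_ne_zero
      have h3 : (p.2.factorial : ℂ) ≠ 0 := by exact_mod_cast p.2.factorial_ne_zero
      have h4 : (n.choose p.1 : ℂ) * (p.1.factorial : ℂ) * (p.2.factorial : ℂ) =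
          (n.factorial : ℂ) := by
        subst hp'
        have := Nat.add_choose_mul_factorial_mul_factorial p.1 p.2
        rw [← Nat.choose_symm_add] at this
        exact_mod_cast this
      rw [hp', nsmul_eq_mul, ← h4]
      have h7 : (n.choose p.1 : ℂ) ≠ 0 := by
        intro h0
        rw [h0] at h4
        simp at h4
        exact h1 h4.symm
      field_simp
    rw [e]
    exact hasSum_fintype _
  have h6 : EE β a (t + s) i j = ∑' q, F q := h5.tsum_eq
  rw [h6]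
  exact h1

theorem EE_eigen' (h : JB β a A B) (w : ℕ → ℂ) (hw : Jop β a w = 0)
    {C : ℝ} (hC : ∀ k, ‖w k‖ ≤ C) (t : ℂ) (j : ℕ) :
    HasSum (fun k => EE β a t j k * w k) (w j) := by
  have hC0 : 0 ≤ C := (norm_nonneg _).trans (hC 0)
  obtain ⟨K, hK, hb⟩ := EE_abs_bound h ‖t‖ (1 / 2) (norm_nonneg _) (by norm_num) (by norm_num)
  set X : ℕ → ℕ → ℂ := fun k m => (-t) ^ m / (m.factorial : ℂ) * Jcol β a m k j with hX
  have sX : ∀ l, Summable fun m => ‖X l m‖ := fun l => EE_summable h t j l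
  set F : ℕ × ℕ → ℂ := fun q => X q.1 q.2 * w q.1 with hF
  have sF : Summable (fun q => ‖F q‖) := by
    rw [summable_prod_of_nonneg (fun _ => norm_nonneg _)]
    constructor
    · intro l
      simp only [hF, norm_mul]
      exact (sX l).mul_right _
    · refine Summable.of_nonneg_of_le (fun l => tsum_nonneg fun _ => norm_nonneg _) (fun l => ?_)
        ((weight_summable h ‖t‖ (norm_nonneg _) j).mul_left (K * C))
      show ∑' m : ℕ, ‖F (l, m)‖ ≤ _
      simp only [hF, norm_mul]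
      rw [tsum_mul_right]
      have b1 := hb t le_rfl j l
      calc (∑' m, ‖X l m‖) * ‖w l‖ ≤
            (K * (1 / 2 : ℝ) ^ ((j : ℤ) - l).natAbs * Real.exp (‖t‖ * |β l|)) * C :=
            mul_le_mul b1 (hC l) (norm_nonneg _) (by positivity)
        _ = _ := by ring
  have sF' : Summable F := sF.of_norm
  have hS := sF'.hasSum
  have h1 : HasSum (fun l => EE β a t j l * w l) (∑' q, F q) := by
    refine hS.prod_fiberwise fun l => ?_
    have x1 : HasSum (X l) (EE β a t j l) := (sX l).of_norm.hasSum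
    exact x1.mul_right _
  have h2 : HasSum (fun q : ℕ × ℕ => F (q.2, q.1)) (∑' q, F q) :=
    ((Equiv.prodComm ℕ ℕ).hasSum_iff (f := F)).2 hS
  have h3 : HasSum (fun m : ℕ => (-t) ^ m / (m.factorial : ℂ) * (Jop β a)^[m] w j)
      (∑' q, F q) := by
    refine h2.prod_fiberwise (g := fun m : ℕ => (-t) ^ m / (m.factorial : ℂ) * (Jop β a)^[m] w j)
      fun m => ?_
    have := (row_hasSum β a w m j).mul_left ((-t) ^ m / (m.factorial : ℂ))
    have e : (fun l : ℕ => (fun q : ℕ × ℕ => F (q.2, q.1)) (m, l)) =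
        fun l => (-t) ^ m / (m.factorial : ℂ) * (Jcol β a m l j * w l) := by
      funext l
      simp only [hF, hX]
      ring
    rw [e]
    exact this
  have h4 : HasSum (fun m : ℕ => (-t) ^ m / (m.factorial : ℂ) * (Jop β a)^[m] w j) (w j) := by
    have : (fun m : ℕ => (-t) ^ m / (m.factorial : ℂ) * (Jop β a)^[m] w j) =
        fun m => if m = 0 then w j else 0 := by
      funext m
      rcases m with _ | m
      · simp
      · have : (Jop β a)^[m + 1] w = 0 := by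
          rw [Function.iterate_succ, Function.comp_apply, hw]
          clear * -
          induction m with
          | zero => rfl
          | succ m ih =>
            rw [Function.iterate_succ', Function.comp_apply, ih]
            funext i
            simp [Jop]
        rw [this]
        simp
    rw [this]
    exact hasSum_ite_eq 0 (w j)
  rw [h4.unique h3]
  exact h1

theorem EE_eigen (h : JB β a A B) (w : ℕ → ℂ) (hw : Jop β a w = 0)
    (hd : ∀ q : ℝ, 0 < q → ∃ C : ℝ, ∀ k, ‖w k‖ ≤ C * q ^ k) (t : ℂ) (j : ℕ) :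
    HasSum (fun k => EE β a t j k * w k) (w j) := by
  obtain ⟨C, hC⟩ := hd 1 one_pos
  exact EE_eigen' h w hw (C := C) (fun k => by simpa using hC k) t j

end Pool.Agent.Helper55.BD
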