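import Pool.Agent.Helper55.BD.Defs

/-! Auxiliary results for module G (TriExp). -/

open Set Filter Topology MeasureTheory

namespace Pool.Agent.Helper55.BD

/-- linear map version of `Jop` -/
noncomputable def Jlin (β a : ℕ → ℝ) : (ℕ → ℂ) →ₗ[ℂ] (ℕ → ℂ) where
  toFun φ := Jop β a φ
  map_add' φ ψ := by
    funext j
    simp only [Jop, Pi.add_apply]
    split_ifs <;> ring
  map_smul' c φ := by
    funext j
    simp only [Jop, Pi.smul_apply, smul_eq_mul, RingHom.id_apply]
    split_ifs <;> ring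

theorem Jlin_apply (β a : ℕ → ℝ) (φ : ℕ → ℂ) : Jlin β a φ = Jop β a φ := rfl

theorem Jcol_eq_pow (β a : ℕ → ℝ) (m k : ℕ) :
    Jcol β a m k = ((Jlin β a) ^ m) (Pi.single k 1) := by
  induction m with
  | zero => simp [Jcol]
  | succ m ih => rw [Jcol, ih, pow_succ', Module.End.mul_apply, Jlin_apply]

/-- column `k` of `(J - b)^m` -/
noncomputable def Kcol (β a : ℕ → ℝ) (b : ℂ) (m k : ℕ) : ℕ → ℂ :=
  ((Jlin β a - b • 1) ^ m) (Pi.single k 1)

theorem Kcol_zero (β a : ℕ → ℝ) (b : ℂ) (k : ℕ) : Kcol β a b 0 k = Pi.single k 1 := by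
  simp [Kcol]

theorem Kcol_succ (β a : ℕ → ℝ) (b : ℂ) (m k j : ℕ) :
    Kcol β a b (m + 1) k j = Jop β a (Kcol β a b m k) j - b * Kcol β a b m k j := by
  simp only [Kcol, pow_succ', Module.End.mul_apply, LinearMap.sub_apply, LinearMap.smul_apply,
    Module.End.one_apply, Jlin_apply, Pi.sub_apply, Pi.smul_apply, smul_eq_mul]

theorem Jcol_binom (β a : ℕ → ℝ) (b : ℂ) (n k j : ℕ) :
    Jcol β a n k j = ∑ m ∈ Finset.HasAntidiagonal.antidiagonal n,
      (n.choose m.1 : ℂ) * (Kcol β a b m.1 k j * b ^ m.2) := by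
  have h1 : Jlin β a = (Jlin β a - b • 1) + b • 1 := by simp
  have hc : Commute (Jlin β a - b • (1 : Module.End ℂ (ℕ → ℂ))) (b • 1) :=
    Commute.smul_right (Commute.one_right _) b
  have h2 : (Jlin β a) ^ n = ∑ m ∈ Finset.HasAntidiagonal.antidiagonal n,
      n.choose m.1 • ((Jlin β a - b • 1) ^ m.1 * (b • (1 : Module.End ℂ (ℕ → ℂ))) ^ m.2) := by
    conv_lhs => rw [h1]
    exact hc.add_pow' n
  rw [Jcol_eq_pow, h2, LinearMap.sum_apply, Finset.sum_apply]
  refine Finset.sum_congr rfl fun m _ => ?_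
  rw [smul_pow, one_pow]
  simp only [Algebra.mul_smul_comm, mul_one, LinearMap.smul_apply, Pi.smul_apply]
  rw [nsmul_eq_mul, smul_eq_mul, Kcol]
  ring

/-- logarithmic Lipschitz bound -/
theorem log_diff_le (j k : ℕ) {l : ℝ} (hl : 0 < l) :
    |Real.log ((j : ℝ) + 1) - Real.log ((k : ℝ) + 1)| ≤
      |l - 1 - Real.log l| + l * (((j : ℤ) - k).natAbs : ℝ) := by
  have key : ∀ j k : ℕ, k ≤ j → |Real.log ((j : ℝ) + 1) - Real.log ((k : ℝ) + 1)| ≤
      |l - 1 - Real.log l| + l * ((j : ℝ) - k) := by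
    intro j k hjk
    have hk : (0 : ℝ) < (k : ℝ) + 1 := by positivity
    have hj : (0 : ℝ) < (j : ℝ) + 1 := by positivity
    have hjk' : (k : ℝ) ≤ j := by exact_mod_cast hjk
    rw [abs_of_nonneg (sub_nonneg.2 (Real.log_le_log hk (by linarith)))]
    rw [← Real.log_div hj.ne' hk.ne']
    have h1 : ((j : ℝ) + 1) / ((k : ℝ) + 1) ≤ 1 + ((j : ℝ) - k) := by
      rw [div_le_iff₀ hk]
      nlinarith [sub_nonneg.2 hjk', (Nat.cast_nonneg k : (0 : ℝ) ≤ k)]
    have h2 : Real.log (((j : ℝ) + 1) / ((k : ℝ) + 1)) ≤ Real.log (1 + ((j : ℝ) - k)) :=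
      Real.log_le_log (by positivity) h1
    have h3 : Real.log (1 + ((j : ℝ) - k)) = Real.log (l * (1 + ((j : ℝ) - k))) - Real.log l := by
      rw [Real.log_mul hl.ne' (by linarith)]
      ring
    have h4 : Real.log (l * (1 + ((j : ℝ) - k))) ≤ l * (1 + ((j : ℝ) - k)) - 1 :=
      Real.log_le_sub_one_of_pos (mul_pos hl (by linarith))
    have h5 : l - 1 - Real.log l ≤ |l - 1 - Real.log l| := le_abs_self _
    linarith
  rcases le_total k j with h | h
  · refine (key j k h).trans (le_of_eq ?_)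
    congr 2
    have : (((j : ℤ) - k).natAbs : ℝ) = (((j - k : ℕ)) : ℝ) := by
      congr 1
      omega
    rw [this, Nat.cast_sub h]
  · rw [abs_sub_comm]
    refine (key k j h).trans (le_of_eq ?_)
    congr 2
    have : (((j : ℤ) - k).natAbs : ℝ) = (((k - j : ℕ)) : ℝ) := by
      congr 1
      omega
    rw [this, Nat.cast_sub h]

variable {β a : ℕ → ℝ} {A B : ℝ}

theorem Kcol_bound (h : JB β a A B) {l : ℝ} (hl : 0 < l) (k m : ℕ) : ∀ j : ℕ,
    ‖Kcol β a (β k : ℂ) m k j‖ ≤ (2 * B + |l - 1 - Real.log l| + 2 * A + l * m) ^ m ∧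
    (m < ((j : ℤ) - k).natAbs → Kcol β a (β k : ℂ) m k j = 0) := by
  have hA := h.hA
  have hB := h.hB
  set D : ℝ := 2 * B + |l - 1 - Real.log l| with hD
  have hD0 : 0 ≤ D := by positivity
  induction m with
  | zero =>
    intro j
    rw [Kcol_zero]
    constructor
    · by_cases hj : j = k
      · subst hj; simp
      · simp [Pi.single_apply, hj]
    · intro hlt
      have : j ≠ k := by
        rintro rfl
        simp at hlt
      simp [Pi.single_apply, this]
  | succ m ih =>
    intro j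
    have hbnn : 0 ≤ D + 2 * A + l * m := by positivity
    constructor
    · rw [Kcol_succ, Jop]
      have e1 : (β j : ℂ) * Kcol β a (β k) m k j +
          (if j = 0 then 0 else (a j : ℂ) * Kcol β a (β k) m k (j - 1)) -
          (a (j + 1) : ℂ) * Kcol β a (β k) m k (j + 1) - (β k : ℂ) * Kcol β a (β k) m k j =
          ((β j - β k : ℝ) : ℂ) * Kcol β a (β k) m k j +
          (if j = 0 then 0 else (a j : ℂ) * Kcol β a (β k) m k (j - 1)) -
          (a (j + 1) : ℂ) * Kcol β a (β k) m k (j + 1) := by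
        push_cast
        ring
      rw [e1]
      have n1 : ‖((β j - β k : ℝ) : ℂ) * Kcol β a (β k) m k j‖ ≤
          (D + l * m) * (D + 2 * A + l * m) ^ m := by
        by_cases hm : m < ((j : ℤ) - k).natAbs
        · rw [(ih j).2 hm, mul_zero, norm_zero]
          positivity
        · push Not at hm
          rw [norm_mul, Complex.norm_real, Real.norm_eq_abs]
          refine mul_le_mul ?_ (ih j).1 (norm_nonneg _) (by positivity)
          have hm' : (((j : ℤ) - k).natAbs : ℝ) ≤ m := by exact_mod_cast hm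
          have q1 := log_diff_le j k hl
          have q2 := h.hb j
          have q3 := h.hb k
          have q4 : |β j - β k| ≤ |β j - Real.log ((j : ℝ) + 1)| +
              |Real.log ((j : ℝ) + 1) - Real.log ((k : ℝ) + 1)| +
              |β k - Real.log ((k : ℝ) + 1)| := by
            have : β j - β k = (β j - Real.log ((j : ℝ) + 1)) +
              (Real.log ((j : ℝ) + 1) - Real.log ((k : ℝ) + 1)) +
              (-(β k - Real.log ((k : ℝ) + 1))) := by ring
            rw [this]
            refine (abs_add_le _ _).trans ?_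
            rw [abs_neg]
            gcongr
            exact abs_add_le _ _
          have q5 : l * (((j : ℤ) - k).natAbs : ℝ) ≤ l * m := by gcongr
          rw [hD]
          linarith
      have n2 : ‖(if j = 0 then (0 : ℂ) else (a j : ℂ) * Kcol β a (β k) m k (j - 1))‖ ≤
          A * (D + 2 * A + l * m) ^ m := by
        split_ifs
        · rw [norm_zero]; positivity
        · rw [norm_mul, Complex.norm_real, Real.norm_eq_abs]
          exact mul_le_mul (h.ha j) (ih _).1 (norm_nonneg _) hA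
      have n3 : ‖(a (j + 1) : ℂ) * Kcol β a (β k) m k (j + 1)‖ ≤
          A * (D + 2 * A + l * m) ^ m := by
        rw [norm_mul, Complex.norm_real, Real.norm_eq_abs]
        exact mul_le_mul (h.ha (j + 1)) (ih _).1 (norm_nonneg _) hA
      calc _ ≤ (D + l * m) * (D + 2 * A + l * m) ^ m + A * (D + 2 * A + l * m) ^ m +
            A * (D + 2 * A + l * m) ^ m :=
            (norm_sub_le _ _).trans (add_le_add ((norm_add_le _ _).trans (add_le_add n1 n2)) n3)
        _ = (D + 2 * A + l * m) ^ (m + 1) := by ring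
        _ ≤ (D + 2 * A + l * ((m + 1 : ℕ) : ℝ)) ^ (m + 1) := by
            refine pow_le_pow_left₀ hbnn ?_ _
            push_cast
            nlinarith
    · intro hlt
      rw [Kcol_succ, Jop]
      have z1 : Kcol β a (β k : ℂ) m k j = 0 := (ih j).2 (by omega)
      have z2 : Kcol β a (β k : ℂ) m k (j + 1) = 0 := (ih (j + 1)).2 (by push_cast; omega)
      have z3 : (if j = 0 then (0 : ℂ) else (a j : ℂ) * Kcol β a (β k) m k (j - 1)) = 0 := by
        split_ifs with hj
        · rfl
        · rw [(ih (j - 1)).2 (by omega), mul_zero]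
      rw [z1, z2, z3]
      ring

/-- the key bound on the terms of the shifted exponential series -/
theorem Kterm_bound (h : JB β a A B) (R θ : ℝ) (hR : 0 ≤ R) (hθ : 0 < θ) (hθ1 : θ < 1) :
    ∃ D : ℝ, 0 ≤ D ∧ ∀ t : ℂ, ‖t‖ ≤ R → ∀ j k m : ℕ,
      ‖(-t) ^ m / (m.factorial : ℂ) * Kcol β a (β k : ℂ) m k j‖ ≤
        D * θ ^ ((j : ℤ) - k).natAbs * (1 / 2) ^ m := by
  set l : ℝ := θ / (2 * Real.exp 1 * (R + 1)) with hl
  have hl0 : 0 < l := by positivity
  set C : ℝ := 2 * B + |l - 1 - Real.log l| + 2 * A with hC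
  have hC0 : 0 ≤ C := by
    have := h.hA
    have := h.hB
    positivity
  refine ⟨Real.exp (C / l), (Real.exp_pos _).le, ?_⟩
  intro t ht j k m
  by_cases hm : m < ((j : ℤ) - k).natAbs
  · rw [(Kcol_bound h hl0 k m j).2 hm, mul_zero, norm_zero]
    positivity
  push Not at hm
  rw [norm_mul, norm_div, norm_pow, norm_neg]
  have hf : (0 : ℝ) < (m.factorial : ℝ) := by positivity
  have e1 : ‖(m.factorial : ℂ)‖ = (m.factorial : ℝ) := by simp
  rw [e1]
  have h1 : ‖Kcol β a (β k : ℂ) m k j‖ ≤ (C + l * m) ^ m := (Kcol_bound h hl0 k m j).1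
  have h2 : (C + l * m) ^ m / (m.factorial : ℝ) ≤ Real.exp (C / l) * (l * Real.exp 1) ^ m := by
    have e2 : C + l * m = l * (C / l + m) := by field_simp
    rw [e2, mul_pow]
    have := Real.pow_div_factorial_le_exp (C / l + m) (by positivity) m
    rw [Real.exp_add] at this
    have e3 : Real.exp (m : ℝ) = Real.exp 1 ^ m := by
      rw [← Real.exp_nat_mul, mul_one]
    rw [e3] at this
    calc l ^ m * (C / l + m) ^ m / (m.factorial : ℝ)
        = l ^ m * ((C / l + m) ^ m / (m.factorial : ℝ)) := by ring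
      _ ≤ l ^ m * (Real.exp (C / l) * Real.exp 1 ^ m) := by gcongr
      _ = Real.exp (C / l) * (l * Real.exp 1) ^ m := by rw [mul_pow]; ring
  calc ‖t‖ ^ m / (m.factorial : ℝ) * ‖Kcol β a (β k : ℂ) m k j‖
      ≤ R ^ m / (m.factorial : ℝ) * (C + l * m) ^ m := by gcongr
    _ = R ^ m * ((C + l * m) ^ m / (m.factorial : ℝ)) := by ring
    _ ≤ R ^ m * (Real.exp (C / l) * (l * Real.exp 1) ^ m) := by gcongr
    _ = Real.exp (C / l) * (R * (l * Real.exp 1)) ^ m := by rw [mul_pow]; ring
    _ ≤ Real.exp (C / l) * (θ * (1 / 2)) ^ m := by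
        refine mul_le_mul_of_nonneg_left (pow_le_pow_left₀ (by positivity) ?_ _) (Real.exp_pos _).le
        rw [hl]
        have : R * (θ / (2 * Real.exp 1 * (R + 1)) * Real.exp 1) = θ * (1 / 2) * (R / (R + 1)) := by
          field_simp
        rw [this]
        have h3 : R / (R + 1) ≤ 1 := by
          rw [div_le_one (by positivity)]
          linarith
        calc θ * (1 / 2) * (R / (R + 1)) ≤ θ * (1 / 2) * 1 := by gcongr
          _ = θ * (1 / 2) := by ring
    _ = Real.exp (C / l) * θ ^ m * (1 / 2) ^ m := by rw [mul_pow]; ring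
    _ ≤ Real.exp (C / l) * θ ^ ((j : ℤ) - k).natAbs * (1 / 2) ^ m := by
        have : θ ^ m ≤ θ ^ ((j : ℤ) - k).natAbs := pow_le_pow_of_le_one hθ.le hθ1.le hm
        gcongr

end Pool.Agent.Helper55.BD
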